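import Pool.Agent.H101.HB.Stm

/-!
# Project HB-uniform, `S_OS`: the sum over the off-diagonal terms (helper757)
-/

set_option autoImplicit false

open Filter Topology Set Finset

namespace Pool.Agent.H757.HB

theorem step_ineq {s x : ℝ} (hs : 0 < s) (hx : 0 < x) :
    s * (x + 1) ^ (-(1 + s)) ≤ x ^ (-s) - (x + 1) ^ (-s) := by
  have hx1 : 0 < x + 1 := by linarith
  have h1 : (x + 1) ^ (-(1 + s)) = (x + 1) ^ (-s) * (x + 1)⁻¹ := by
    rw [show -(1 + s) = -s + (-1) by ring, Real.rpow_add hx1, Real.rpow_neg_one]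
  have hy : 0 < (x + 1) / x := by positivity
  have h2 : x ^ (-s) = (x + 1) ^ (-s) * ((x + 1) / x) ^ s := by
    rw [Real.div_rpow hx1.le hx.le, Real.rpow_neg hx1.le, Real.rpow_neg hx.le]
    have : (x + 1) ^ s ≠ 0 := (Real.rpow_pos_of_pos hx1 s).ne'
    have : x ^ s ≠ 0 := (Real.rpow_pos_of_pos hx s).ne'
    field_simp
  have h3 : 1 + s * (x + 1)⁻¹ ≤ ((x + 1) / x) ^ s := by
    rw [Real.rpow_def_of_pos hy]
    have h4 := Real.one_sub_inv_le_log_of_pos hy
    have h5 : 1 - ((x + 1) / x)⁻¹ = (x + 1)⁻¹ := by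
      field_simp
      ring
    rw [h5] at h4
    have h6 := Real.add_one_le_exp (Real.log ((x + 1) / x) * s)
    nlinarith [mul_le_mul_of_nonneg_left h4 hs.le]
  have h7 : 0 < (x + 1) ^ (-s) := Real.rpow_pos_of_pos hx1 _
  rw [h1, h2]
  nlinarith [mul_le_mul_of_nonneg_left h3 h7.le]

theorem zsum_aux {s : ℝ} (hs : 0 < s) (N : ℕ) :
    ∑ j ∈ range (N + 1), ((j : ℝ) + 1) ^ (-(1 + s)) ≤ 1 + 1 / s * (1 - ((N : ℝ) + 1) ^ (-s)) := by
  induction N with
  | zero => simp
  | succ N ih =>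
    rw [Finset.sum_range_succ]
    have hN : (0 : ℝ) < (N : ℝ) + 1 := by positivity
    have h1 := step_ineq hs hN
    have h2 : (((N + 1 : ℕ) : ℝ) + 1) ^ (-(1 + s)) ≤
        1 / s * (((N : ℝ) + 1) ^ (-s) - (((N + 1 : ℕ) : ℝ) + 1) ^ (-s)) := by
      push_cast
      rw [one_div, ← div_eq_inv_mul, le_div_iff₀ hs, mul_comm]
      exact h1
    calc _ ≤ 1 + 1 / s * (1 - ((N : ℝ) + 1) ^ (-s)) +
          1 / s * (((N : ℝ) + 1) ^ (-s) - (((N + 1 : ℕ) : ℝ) + 1) ^ (-s)) := add_le_add ih h2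
      _ = _ := by ring

theorem zsum {s : ℝ} (hs : 0 < s) (N : ℕ) :
    ∑ j ∈ range N, ((j : ℝ) + 1) ^ (-(1 + s)) ≤ 1 + 1 / s := by
  have h1 : ∑ j ∈ range N, ((j : ℝ) + 1) ^ (-(1 + s)) ≤
      ∑ j ∈ range (N + 1), ((j : ℝ) + 1) ^ (-(1 + s)) := by
    rw [Finset.sum_range_succ]
    have : 0 ≤ ((N : ℝ) + 1) ^ (-(1 + s)) := Real.rpow_nonneg (by positivity) _
    linarith
  refine h1.trans ((zsum_aux hs N).trans ?_)
  have h2 : 0 ≤ ((N : ℝ) + 1) ^ (-s) := Real.rpow_nonneg (by positivity) _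
  have h3 : 0 < 1 / s := by positivity
  nlinarith

/-- `log j * j ^ (-(1 + η)) ≤ (2 / η) * j ^ (-(1 + η / 2))` -/
theorem log_term {η x : ℝ} (hη : 0 < η) (hx : 1 ≤ x) :
    Real.log x * x ^ (-(1 + η)) ≤ 2 / η * x ^ (-(1 + η / 2)) := by
  have hx0 : 0 < x := by linarith
  have h1 : Real.log x ≤ x ^ (η / 2) / (η / 2) := Real.log_le_rpow_div hx0.le (by positivity)
  have h2 : 0 ≤ x ^ (-(1 + η)) := Real.rpow_nonneg hx0.le _
  have h3 : x ^ (η / 2) * x ^ (-(1 + η)) = x ^ (-(1 + η / 2)) := by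
    rw [← Real.rpow_add hx0]
    congr 1
    ring
  calc Real.log x * x ^ (-(1 + η)) ≤ x ^ (η / 2) / (η / 2) * x ^ (-(1 + η)) :=
        mul_le_mul_of_nonneg_right h1 h2
    _ = 2 / η * (x ^ (η / 2) * x ^ (-(1 + η))) := by field_simp
    _ = _ := by rw [h3]

theorem logsum {η : ℝ} (hη : 0 < η) (N : ℕ) :
    ∑ j ∈ range N, Real.log ((j : ℝ) + 1) * ((j : ℝ) + 1) ^ (-(1 + η)) ≤
      2 / η * (1 + 2 / η) := by
  have h1 : ∑ j ∈ range N, Real.log ((j : ℝ) + 1) * ((j : ℝ) + 1) ^ (-(1 + η)) ≤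
      ∑ j ∈ range N, 2 / η * ((j : ℝ) + 1) ^ (-(1 + η / 2)) := by
    refine Finset.sum_le_sum fun j _ => log_term hη ?_
    have : (0 : ℝ) ≤ j := Nat.cast_nonneg j
    linarith
  refine h1.trans ?_
  rw [← Finset.mul_sum]
  have h2 := zsum (s := η / 2) (by positivity) N
  have h3 : 1 / (η / 2) = 2 / η := by field_simp
  rw [h3] at h2
  exact mul_le_mul_of_nonneg_left h2 (by positivity)

theorem harm (m : ℕ) (hm : 1 ≤ m) : ∑ j ∈ range m, ((j : ℝ) + 1)⁻¹ ≤ 1 + Real.log m := by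
  have h1 := harmonic_le_one_add_log m
  have h2 : ((harmonic m : ℚ) : ℝ) = ∑ j ∈ range m, ((j : ℝ) + 1)⁻¹ := by
    rw [harmonic]
    push_cast
    rfl
  rw [h2] at h1
  exact h1

/-- the term -/
noncomputable def f (T : ℝ) (m l : ℕ) : ℝ := if l = 0 ∨ l = m then (0 : ℝ) else
    Real.log l * (l : ℝ) ^ (-(1 + 1 / Real.log T)) / |Real.log ((m : ℝ) / l)|

theorem f_nonneg (T : ℝ) (m l : ℕ) : 0 ≤ f T m l := by
  unfold f
  split_ifs with h
  · exact le_refl _
  · rw [not_or] at h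
    have hl : (1 : ℝ) ≤ l := by
      exact_mod_cast Nat.one_le_iff_ne_zero.mpr h.1
    have := Real.log_nonneg hl
    have : 0 ≤ (l : ℝ) ^ (-(1 + 1 / Real.log T)) := Real.rpow_nonneg (by positivity) _
    positivity

section

variable {T : ℝ} (hT : 3 ≤ T) {m : ℕ} (hm : 1 ≤ m) (hmT : (m : ℝ) ≤ T)

include hT

theorem log_T_ge : 1 ≤ Real.log T := by
  rw [Real.le_log_iff_exp_le (by linarith)]
  have := Real.exp_one_lt_d9
  linarith

include hm hmT

theorem f_low {l : ℕ} (hl : l + 1 < m) : f T m (l + 1) ≤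
    Real.log ((l : ℝ) + 1) * ((l : ℝ) + 1) ^ (-(1 + 1 / Real.log T)) +
      Real.log T * ((m : ℝ) - (l + 1))⁻¹ := by
  have hL := log_T_ge hT
  have hL0 : 0 < Real.log T := by linarith
  have hη : 0 < 1 / Real.log T := by positivity
  have hm0 : (0 : ℝ) < m := by exact_mod_cast hm
  have hlm : ((l : ℝ) + 1) < m := by exact_mod_cast hl
  unfold f
  rw [if_neg (by omega)]
  push_cast
  set x : ℝ := (l : ℝ) + 1 with hx
  have hx1 : 1 ≤ x := by
    have : (0 : ℝ) ≤ l := Nat.cast_nonneg l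
    linarith
  have hx0 : 0 < x := by linarith
  have hlog : ((m : ℝ) - x) / m ≤ |Real.log ((m : ℝ) / x)| := by
    refine le_trans ?_ (le_abs_self _)
    have h1 := Real.one_sub_inv_le_log_of_pos (show 0 < (m : ℝ) / x by positivity)
    have h2 : 1 - ((m : ℝ) / x)⁻¹ = ((m : ℝ) - x) / m := by
      field_simp
    rw [h2] at h1
    exact h1
  have hd : 0 < (m : ℝ) - x := by linarith
  have hq : 0 < ((m : ℝ) - x) / m := by positivity
  have hlx : 0 ≤ Real.log x := Real.log_nonneg hx1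
  have hpow : 0 ≤ x ^ (-(1 + 1 / Real.log T)) := Real.rpow_nonneg hx0.le _
  have h3 : Real.log x * x ^ (-(1 + 1 / Real.log T)) / |Real.log ((m : ℝ) / x)| ≤
      Real.log x * x ^ (-(1 + 1 / Real.log T)) / (((m : ℝ) - x) / m) :=
    div_le_div_of_nonneg_left (mul_nonneg hlx hpow) hq hlog
  refine h3.trans ?_
  have h4 : Real.log x * x ^ (-(1 + 1 / Real.log T)) / (((m : ℝ) - x) / m) =
      Real.log x * x ^ (-(1 + 1 / Real.log T)) +
        Real.log x * (x * x ^ (-(1 + 1 / Real.log T))) * ((m : ℝ) - x)⁻¹ := by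
    field_simp
    ring
  rw [h4]
  have h5 : x * x ^ (-(1 + 1 / Real.log T)) ≤ 1 := by
    have : x * x ^ (-(1 + 1 / Real.log T)) = x ^ (-(1 / Real.log T)) := by
      nth_rewrite 1 [← Real.rpow_one x]
      rw [← Real.rpow_add hx0]
      congr 1
      ring
    rw [this]
    exact Real.rpow_le_one_of_one_le_of_nonpos hx1 (by linarith)
  have h6 : Real.log x ≤ Real.log T := Real.log_le_log hx0 (by linarith)
  have h7 : 0 ≤ x * x ^ (-(1 + 1 / Real.log T)) := mul_nonneg hx0.le hpow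
  have h8 : Real.log x * (x * x ^ (-(1 + 1 / Real.log T))) ≤ Real.log T := by
    calc Real.log x * (x * x ^ (-(1 + 1 / Real.log T))) ≤ Real.log T * 1 :=
          mul_le_mul h6 h5 h7 hL0.le
      _ = Real.log T := mul_one _
  have h9 := mul_le_mul_of_nonneg_right h8 (inv_nonneg.mpr hd.le)
  linarith

theorem f_high (j : ℕ) : f T m (m + (j + 1)) ≤
    (Real.log 2 + Real.log T) * ((j : ℝ) + 1) ^ (-(1 + 1 / Real.log T)) +
      Real.log ((j : ℝ) + 1) * ((j : ℝ) + 1) ^ (-(1 + 1 / Real.log T)) := by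
  have hL := log_T_ge hT
  have hL0 : 0 < Real.log T := by linarith
  have hη : 0 < 1 / Real.log T := by positivity
  have hm0 : (0 : ℝ) < m := by exact_mod_cast hm
  have hm1 : (1 : ℝ) ≤ m := by exact_mod_cast hm
  unfold f
  rw [if_neg (by omega)]
  push_cast
  set y : ℝ := (j : ℝ) + 1 with hy
  have hy1 : 1 ≤ y := by
    have : (0 : ℝ) ≤ j := Nat.cast_nonneg j
    linarith
  have hy0 : 0 < y := by linarith
  set x : ℝ := (m : ℝ) + y with hx
  have hx0 : 0 < x := by linarith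
  have hx1 : 1 ≤ x := by linarith
  have hlog : y / x ≤ |Real.log ((m : ℝ) / x)| := by
    rw [← abs_neg, ← Real.log_inv]
    refine le_trans ?_ (le_abs_self _)
    have h1 := Real.one_sub_inv_le_log_of_pos (show 0 < ((m : ℝ) / x)⁻¹ by positivity)
    have h2 : 1 - (((m : ℝ) / x)⁻¹)⁻¹ = y / x := by
      rw [inv_inv, hx]
      field_simp
      ring
    rw [h2] at h1
    exact h1
  have hq : 0 < y / x := by positivity
  have hlx : 0 ≤ Real.log x := Real.log_nonneg hx1
  have hpow : 0 ≤ x ^ (-(1 + 1 / Real.log T)) := Real.rpow_nonneg hx0.le _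
  have h3 : Real.log x * x ^ (-(1 + 1 / Real.log T)) / |Real.log ((m : ℝ) / x)| ≤
      Real.log x * x ^ (-(1 + 1 / Real.log T)) / (y / x) :=
    div_le_div_of_nonneg_left (mul_nonneg hlx hpow) hq hlog
  refine h3.trans ?_
  have hxx : x * x ^ (-(1 + 1 / Real.log T)) = x ^ (-(1 / Real.log T)) := by
    nth_rewrite 1 [← Real.rpow_one x]
    rw [← Real.rpow_add hx0]
    congr 1
    ring
  have hyy : y⁻¹ * y ^ (-(1 / Real.log T)) = y ^ (-(1 + 1 / Real.log T)) := by
    rw [← Real.rpow_neg_one y, ← Real.rpow_add hy0]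
    congr 1
    ring
  have h4 : Real.log x * x ^ (-(1 + 1 / Real.log T)) / (y / x) =
      Real.log x * (y⁻¹ * x ^ (-(1 / Real.log T))) := by
    rw [← hxx]
    field_simp
  rw [h4]
  have h5 : x ^ (-(1 / Real.log T)) ≤ y ^ (-(1 / Real.log T)) :=
    Real.rpow_le_rpow_of_nonpos hy0 (by linarith) (by linarith)
  have h6 : Real.log x ≤ Real.log 2 + Real.log T + Real.log y := by
    have h7 : x ≤ 2 * m * y := by nlinarith
    calc Real.log x ≤ Real.log (2 * m * y) := Real.log_le_log hx0 h7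
      _ = Real.log 2 + Real.log m + Real.log y := by
        rw [Real.log_mul (by positivity) hy0.ne', Real.log_mul (by norm_num) hm0.ne']
      _ ≤ Real.log 2 + Real.log T + Real.log y := by
        have := Real.log_le_log hm0 hmT
        linarith
  have h8 : 0 ≤ y ^ (-(1 + 1 / Real.log T)) := Real.rpow_nonneg hy0.le _
  have h9 : y⁻¹ * x ^ (-(1 / Real.log T)) ≤ y ^ (-(1 + 1 / Real.log T)) := by
    rw [← hyy]
    exact mul_le_mul_of_nonneg_left h5 (by positivity)
  have h10 : 0 ≤ y⁻¹ * x ^ (-(1 / Real.log T)) :=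
    mul_nonneg (by positivity) (Real.rpow_nonneg hx0.le _)
  calc Real.log x * (y⁻¹ * x ^ (-(1 / Real.log T))) ≤
        (Real.log 2 + Real.log T + Real.log y) * y ^ (-(1 + 1 / Real.log T)) :=
        mul_le_mul h6 h9 h10 (le_trans hlx h6)
    _ = _ := by ring

theorem partial_sum (N : ℕ) : ∑ l ∈ range N, f T m l ≤ 18 * Real.log T ^ 3 := by
  have hL := log_T_ge hT
  have hL0 : 0 < Real.log T := by linarith
  have hη : 0 < 1 / Real.log T := by positivity
  have hinv : 1 / (1 / Real.log T) = Real.log T := by field_simp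
  have hinv2 : 2 / (1 / Real.log T) = 2 * Real.log T := by field_simp
  obtain ⟨k, rfl⟩ : ∃ k, m = k + 1 := ⟨m - 1, by omega⟩
  have h0 : ∑ l ∈ range N, f T (k + 1) l ≤ ∑ l ∈ range (k + 1 + (N + 1)), f T (k + 1) l :=
    Finset.sum_le_sum_of_subset_of_nonneg (Finset.range_mono (by omega))
      fun l _ _ => f_nonneg T (k + 1) l
  refine h0.trans ?_
  rw [Finset.sum_range_add, Finset.sum_range_succ', Finset.sum_range_succ'
    (fun x => f T (k + 1) (k + 1 + x))]
  have z1 : f T (k + 1) 0 = 0 := by simp [f]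
  have z2 : f T (k + 1) (k + 1 + 0) = 0 := by simp [f]
  rw [z1, z2, add_zero, add_zero]
  -- low part
  have low : ∑ l ∈ range k, f T (k + 1) (l + 1) ≤
      2 * Real.log T * (1 + 2 * Real.log T) + Real.log T * (1 + Real.log T) := by
    have h1 : ∑ l ∈ range k, f T (k + 1) (l + 1) ≤ ∑ l ∈ range k,
        (Real.log ((l : ℝ) + 1) * ((l : ℝ) + 1) ^ (-(1 + 1 / Real.log T)) +
          Real.log T * (((k + 1 : ℕ) : ℝ) - (l + 1))⁻¹) := by
      refine Finset.sum_le_sum fun l hl => f_low hT hm hmT ?_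
      rw [Finset.mem_range] at hl
      omega
    refine h1.trans ?_
    rw [Finset.sum_add_distrib]
    have h2 := logsum hη k
    rw [hinv2] at h2
    have h3 : ∑ l ∈ range k, Real.log T * (((k + 1 : ℕ) : ℝ) - (l + 1))⁻¹ ≤
        Real.log T * (1 + Real.log T) := by
      rw [← Finset.mul_sum]
      refine mul_le_mul_of_nonneg_left ?_ hL0.le
      have h4 : ∑ l ∈ range k, (((k + 1 : ℕ) : ℝ) - (l + 1))⁻¹ = ∑ l ∈ range k, ((l : ℝ) + 1)⁻¹ := by
        rw [← Finset.sum_range_reflect (fun l : ℕ => ((l : ℝ) + 1)⁻¹) k]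
        refine Finset.sum_congr rfl fun l hl => ?_
        rw [Finset.mem_range] at hl
        have : ((k - 1 - l : ℕ) : ℝ) = (k : ℝ) - 1 - l := by
          rw [Nat.cast_sub (by omega), Nat.cast_sub (by omega)]
          simp
        rw [this]
        push_cast
        congr 1
        ring
      rw [h4]
      have h5 : ∑ l ∈ range k, ((l : ℝ) + 1)⁻¹ ≤ ∑ l ∈ range (k + 1), ((l : ℝ) + 1)⁻¹ := by
        rw [Finset.sum_range_succ]
        have : (0 : ℝ) ≤ ((k : ℝ) + 1)⁻¹ := by positivity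
        linarith
      have h6 := harm (k + 1) (by omega)
      have h7 : Real.log ((k + 1 : ℕ) : ℝ) ≤ Real.log T :=
        Real.log_le_log (by positivity) hmT
      linarith
    linarith
  have high : ∑ j ∈ range N, f T (k + 1) (k + 1 + (j + 1)) ≤
      (Real.log 2 + Real.log T) * (1 + Real.log T) +
        2 * Real.log T * (1 + 2 * Real.log T) := by
    have h1 : ∑ j ∈ range N, f T (k + 1) (k + 1 + (j + 1)) ≤ ∑ j ∈ range N,
        ((Real.log 2 + Real.log T) * ((j : ℝ) + 1) ^ (-(1 + 1 / Real.log T)) +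
          Real.log ((j : ℝ) + 1) * ((j : ℝ) + 1) ^ (-(1 + 1 / Real.log T))) :=
      Finset.sum_le_sum fun j _ => f_high hT hm hmT j
    refine h1.trans ?_
    rw [Finset.sum_add_distrib, ← Finset.mul_sum]
    have h2 := logsum hη N
    rw [hinv2] at h2
    have h3 := zsum hη N
    rw [hinv] at h3
    have h4 : 0 ≤ Real.log 2 + Real.log T := by
      have := Real.log_nonneg (show (1 : ℝ) ≤ 2 by norm_num)
      linarith
    have h5 := mul_le_mul_of_nonneg_left h3 h4
    linarith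
  have hlog2 : Real.log 2 ≤ 1 := by
    have := Real.log_two_lt_d9
    linarith
  have e1 : Real.log T ≤ Real.log T ^ 2 := by nlinarith
  have e2 : Real.log T ^ 2 ≤ Real.log T ^ 3 := by nlinarith [sq_nonneg (Real.log T)]
  have e3 : (Real.log 2 + Real.log T) * (1 + Real.log T) ≤
      (2 * Real.log T) * (1 + Real.log T) :=
    mul_le_mul_of_nonneg_right (by linarith) (by linarith)
  nlinarith

end

theorem t_OS : Pool.Agent.H101.HB.S_OS := by
  refine ⟨18, by norm_num, ?_⟩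
  intro T hT m hm hmT
  have hb := partial_sum hT hm hmT
  have hn := f_nonneg T m
  exact ⟨summable_of_sum_range_le hn hb, Real.tsum_le_of_sum_range_le hn hb⟩

end Pool.Agent.H757.HB
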