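import Pool.Agent.H101.HB.Stm

/-!
# Project HB-uniform, `S_SM`: the trivial range `X ≤ T` (helper757)
-/

set_option autoImplicit false

open Filter Topology Set Finset MeasureTheory

namespace Pool.Agent.H757.HB.SM

open Pool.Agent.H101.HB

/-- the majorant of `M x H ^ 2` -/
noncomputable def g (H : ℝ) (K : ℕ) (x : ℝ) : ℝ :=
  ∑ n ∈ Finset.Icc 1 K, (Set.Ioo ((n : ℝ) - H / 2) ((n : ℝ) + H / 2)).indicator (fun _ => (1 : ℝ)) x

theorem ind_nonneg (s : Set ℝ) (x : ℝ) : 0 ≤ s.indicator (fun _ => (1 : ℝ)) x :=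
  Set.indicator_nonneg (fun _ _ => zero_le_one) x

theorem g_nonneg (H : ℝ) (K : ℕ) (x : ℝ) : 0 ≤ g H K x :=
  Finset.sum_nonneg fun _ _ => ind_nonneg _ x

theorem M_sq_le {x H X : ℝ} (hH : H ≤ 1) (hx : x ≤ 2 * X) :
    M x H ^ 2 ≤ g H ⌊2 * X + 1 / 2⌋₊ x := by
  unfold M
  set S := (Finset.range (⌈x + H⌉₊ + 1)).filter (fun n : ℕ => |(n : ℝ) - x| < H / 2) with hS
  have hmem : ∀ n ∈ S, |(n : ℝ) - x| < H / 2 := fun n hn => (Finset.mem_filter.mp hn).2
  by_cases h : ∃ n ∈ S, n ≠ 0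
  · obtain ⟨n, hn, hn0⟩ := h
    have huniq : ∀ k ∈ S, k ≠ n → ((ArithmeticFunction.moebius k : ℤ) : ℝ) = 0 := by
      intro k hk hkn
      exfalso
      have h1 := abs_lt.mp (hmem k hk)
      have h2 := abs_lt.mp (hmem n hn)
      rcases lt_or_gt_of_ne hkn with h3 | h3
      · have : (k : ℝ) + 1 ≤ n := by exact_mod_cast h3
        linarith [h1.1, h1.2, h2.1, h2.2]
      · have : (n : ℝ) + 1 ≤ k := by exact_mod_cast h3
        linarith [h1.1, h1.2, h2.1, h2.2]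
    rw [Finset.sum_eq_single_of_mem n hn huniq]
    have h1 := abs_lt.mp (hmem n hn)
    have hmu : ((ArithmeticFunction.moebius n : ℤ) : ℝ) ^ 2 ≤ 1 := by
      have h2 : |ArithmeticFunction.moebius n| ≤ 1 := ArithmeticFunction.abs_moebius_le_one
      have h3 : |((ArithmeticFunction.moebius n : ℤ) : ℝ)| ≤ 1 := by exact_mod_cast h2
      rw [← sq_abs]
      exact pow_le_one₀ (abs_nonneg _) h3
    refine hmu.trans ?_
    have hmemn : n ∈ Finset.Icc 1 ⌊2 * X + 1 / 2⌋₊ := by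
      rw [Finset.mem_Icc]
      refine ⟨Nat.one_le_iff_ne_zero.mpr hn0, Nat.le_floor ?_⟩
      linarith [h1.1, h1.2]
    have hsingle := Finset.single_le_sum (f := fun n : ℕ =>
      (Set.Ioo ((n : ℝ) - H / 2) ((n : ℝ) + H / 2)).indicator (fun _ => (1 : ℝ)) x)
      (fun i _ => ind_nonneg _ x) hmemn
    refine le_trans ?_ hsingle
    rw [Set.indicator_of_mem]
    exact ⟨by linarith [h1.1, h1.2], by linarith [h1.1, h1.2]⟩
  · push Not at h
    rw [Finset.sum_eq_zero]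
    · rw [zero_pow two_ne_zero]
      exact g_nonneg _ _ _
    · intro n hn
      rw [h n hn]
      simp

theorem integrable_ind (a b : ℝ) :
    Integrable ((Set.Ioo a b).indicator (fun _ => (1 : ℝ))) := by
  rw [integrable_indicator_iff measurableSet_Ioo]
  exact integrableOn_const (by simp)

theorem integral_ind {a b : ℝ} (h : a ≤ b) :
    ∫ x, (Set.Ioo a b).indicator (fun _ => (1 : ℝ)) x = b - a := by
  rw [integral_indicator measurableSet_Ioo]
  simp [h]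

theorem integral_M_le {X H : ℝ} (hX : 0 < X) (hH0 : 0 < H) (hH : H ≤ 1) :
    ∫ x in X..2 * X, M x H ^ 2 ≤ (⌊2 * X + 1 / 2⌋₊ : ℝ) * H := by
  rw [intervalIntegral.integral_of_le (by linarith)]
  have hgi : Integrable (g H ⌊2 * X + 1 / 2⌋₊) := by
    unfold g
    exact integrable_finsetSum _ fun n _ => integrable_ind _ _
  have h1 : ∫ x in Set.Ioc X (2 * X), M x H ^ 2 ≤
      ∫ x in Set.Ioc X (2 * X), g H ⌊2 * X + 1 / 2⌋₊ x := by
    refine integral_mono_of_nonneg (Filter.Eventually.of_forall fun x => sq_nonneg _)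
      hgi.integrableOn ?_
    refine (ae_restrict_iff' measurableSet_Ioc).mpr (Filter.Eventually.of_forall fun x hx => ?_)
    exact M_sq_le hH hx.2
  have h2 : ∫ x in Set.Ioc X (2 * X), g H ⌊2 * X + 1 / 2⌋₊ x ≤ ∫ x, g H ⌊2 * X + 1 / 2⌋₊ x :=
    setIntegral_le_integral hgi (Filter.Eventually.of_forall fun x => g_nonneg _ _ _)
  have h3 : ∫ x, g H ⌊2 * X + 1 / 2⌋₊ x = (⌊2 * X + 1 / 2⌋₊ : ℝ) * H := by
    unfold g
    rw [integral_finsetSum _ fun n _ => integrable_ind _ _]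
    have h4 : ∀ n ∈ Finset.Icc 1 ⌊2 * X + 1 / 2⌋₊,
        ∫ x, (Set.Ioo ((n : ℝ) - H / 2) ((n : ℝ) + H / 2)).indicator (fun _ => (1 : ℝ)) x = H := by
      intro n _
      rw [integral_ind (by linarith)]
      ring
    rw [Finset.sum_congr rfl h4]
    simp
  exact (h1.trans h2).trans h3.le

theorem v_le {T X : ℝ} (hT : 1 ≤ T) (hX : 0 < X) (hXT : X ≤ T) :
    v T X ≤ (⌊2 * X + 1 / 2⌋₊ : ℝ) / X := by
  have hT0 : 0 < T := by linarith
  have hH0 : 0 < X / T := by positivity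
  have hH : X / T ≤ 1 := (div_le_one hT0).mpr hXT
  unfold v V
  rw [div_le_iff₀ hH0]
  have h1 := integral_M_le hX hH0 hH
  have h2 := mul_le_mul_of_nonneg_left h1 (show 0 ≤ 1 / X by positivity)
  refine h2.trans (le_of_eq ?_)
  ring

theorem v_low {T X : ℝ} (hT : 1 ≤ T) (hX : 0 < X) (hXT : X ≤ T) (h4 : X < 1 / 4) :
    v T X ≤ 0 := by
  have h1 := v_le hT hX hXT
  have h2 : ⌊2 * X + 1 / 2⌋₊ = 0 := by
    rw [Nat.floor_eq_zero]
    linarith
  rw [h2] at h1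
  simpa using h1

theorem v_high {T X : ℝ} (hT : 1 ≤ T) (hXT : X ≤ T) (h4 : 1 / 4 ≤ X) :
    v T X ≤ 4 := by
  have hX : 0 < X := by linarith
  have h1 := v_le hT hX hXT
  refine h1.trans ?_
  rw [div_le_iff₀ hX]
  have h2 : ((⌊2 * X + 1 / 2⌋₊ : ℕ) : ℝ) ≤ 2 * X + 1 / 2 := Nat.floor_le (by linarith)
  linarith

theorem pow_le {X δ : ℝ} (hδ : 0 < δ) (hδ4 : δ ≤ 1 / 4) (h4 : 1 / 4 ≤ X) :
    X ^ (-(2 * δ) - 1) ≤ 2 * X⁻¹ := by
  have hX : 0 < X := by linarith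
  have h1 : X ^ (-(2 * δ) - 1) = X⁻¹ ^ (2 * δ) * X⁻¹ := by
    rw [Real.rpow_sub hX, Real.rpow_one, Real.rpow_neg hX.le, Real.inv_rpow hX.le]
    rfl
  rw [h1]
  refine mul_le_mul_of_nonneg_right ?_ (by positivity)
  have h2 : X⁻¹ ≤ 4 := by
    rw [inv_le_comm₀ hX (by norm_num)]
    linarith
  calc X⁻¹ ^ (2 * δ) ≤ (4 : ℝ) ^ (2 * δ) := Real.rpow_le_rpow (by positivity) h2 (by positivity)
    _ ≤ (4 : ℝ) ^ ((1 : ℝ) / 2) := Real.rpow_le_rpow_of_exponent_le (by norm_num) (by linarith)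
    _ = 2 := by
      rw [← Real.sqrt_eq_rpow, show (4 : ℝ) = 2 ^ 2 by norm_num, Real.sqrt_sq (by norm_num)]

theorem t_SM : S_SM := by
  intro T δ hT hδ hδ4
  have hT0 : 0 < T := by linarith
  have h1 : ∀ X ∈ Set.Ioc (0 : ℝ) T, ENNReal.ofReal (v T X * X ^ (-(2 * δ) - 1)) ≤
      (Set.Icc (1 / 4 : ℝ) T).indicator (fun X => ENNReal.ofReal (8 * X⁻¹)) X := by
    intro X hX
    have hp : 0 ≤ X ^ (-(2 * δ) - 1) := Real.rpow_nonneg hX.1.le _
    by_cases h4 : X < 1 / 4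
    · have h5 : v T X * X ^ (-(2 * δ) - 1) ≤ 0 :=
        mul_nonpos_of_nonpos_of_nonneg (v_low hT hX.1 hX.2 h4) hp
      rw [ENNReal.ofReal_of_nonpos h5]
      exact bot_le
    · push Not at h4
      rw [Set.indicator_of_mem (show X ∈ Set.Icc (1 / 4 : ℝ) T from ⟨h4, hX.2⟩)]
      refine ENNReal.ofReal_le_ofReal ?_
      calc v T X * X ^ (-(2 * δ) - 1) ≤ 4 * X ^ (-(2 * δ) - 1) :=
            mul_le_mul_of_nonneg_right (v_high hT hX.2 h4) hp
        _ ≤ 4 * (2 * X⁻¹) := mul_le_mul_of_nonneg_left (pow_le hδ hδ4 h4) (by norm_num)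
        _ = 8 * X⁻¹ := by ring
  have hint : IntegrableOn (fun X : ℝ => 8 * X⁻¹) (Set.Icc (1 / 4 : ℝ) T) := by
    refine ContinuousOn.integrableOn_Icc ?_
    refine continuousOn_const.mul (continuousOn_id.inv₀ ?_)
    intro x hx
    have : (0 : ℝ) < x := by linarith [hx.1]
    exact this.ne'
  have hval : ∫ X in Set.Icc (1 / 4 : ℝ) T, 8 * X⁻¹ = 8 * Real.log (T / (1 / 4)) := by
    rw [integral_Icc_eq_integral_Ioc, ← intervalIntegral.integral_of_le (by linarith),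
      intervalIntegral.integral_const_mul, integral_inv_of_pos (by norm_num) hT0]
  calc ∫⁻ X in Set.Ioc (0 : ℝ) T, ENNReal.ofReal (v T X * X ^ (-(2 * δ) - 1))
      ≤ ∫⁻ X in Set.Ioc (0 : ℝ) T,
          (Set.Icc (1 / 4 : ℝ) T).indicator (fun X => ENNReal.ofReal (8 * X⁻¹)) X :=
        setLIntegral_mono' measurableSet_Ioc h1
    _ ≤ ∫⁻ X, (Set.Icc (1 / 4 : ℝ) T).indicator (fun X => ENNReal.ofReal (8 * X⁻¹)) X :=
        setLIntegral_le_lintegral _ _
    _ = ∫⁻ X in Set.Icc (1 / 4 : ℝ) T, ENNReal.ofReal (8 * X⁻¹) :=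
        lintegral_indicator measurableSet_Icc _
    _ = ENNReal.ofReal (∫ X in Set.Icc (1 / 4 : ℝ) T, 8 * X⁻¹) := by
        rw [ofReal_integral_eq_lintegral_ofReal hint]
        refine (ae_restrict_iff' measurableSet_Icc).mpr (Filter.Eventually.of_forall fun x hx => ?_)
        have : (0 : ℝ) < x := by linarith [hx.1]
        show (0 : ℝ) ≤ 8 * x⁻¹
        positivity
    _ ≤ ENNReal.ofReal (20 * (Real.log T + 2)) := by
        refine ENNReal.ofReal_le_ofReal ?_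
        rw [hval, Real.log_div hT0.ne' (by norm_num)]
        have h5 : Real.log (1 / 4 : ℝ) = -(2 * Real.log 2) := by
          rw [one_div, Real.log_inv, show (4 : ℝ) = 2 ^ 2 by norm_num, Real.log_pow]
          push_cast
          ring
        have h6 := Real.log_two_lt_d9
        have h7 : 0 ≤ Real.log T := Real.log_nonneg hT
        rw [h5]
        linarith

end Pool.Agent.H757.HB.SM
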